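import Pool.Agent.Dek.Scale

/-!
# MP_b10093_nt: the equation `σ(n) = rad(n)^2`

De Koninck's conjecture says that `1` and `1782` are the only solutions of `σ(n) = rad(n)^2`.
It is known that a further solution is divisible by the fourth power of at least two odd primes.
Here: for every `h` the solutions that are divisible by the fourth power of at most `h` odd primes
are bounded, `log log n ≤ (3h + 18)^(3h + 18)`.
-/

namespace Pool.Agent.Results.MP_b10093_nt.FourthPowers

/-- If `σ(n) = rad(n)^2` and `n` is divisible by `p ^ 4` for at most `h` odd primes `p`, then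
`n ≤ exp (exp ((3h + 18)^(3h + 18)))`. -/
theorem result (n h : ℕ) (hn : 0 < n)
    (hs : ArithmeticFunction.sigma 1 n = UniqueFactorizationMonoid.radical n ^ 2)
    (hh : (n.primeFactors.filter fun p => p ≠ 2 ∧ p ^ 4 ∣ n).card ≤ h) :
    (n : ℝ) ≤ Real.exp (Real.exp ((3 * h + 18 : ℝ) ^ (3 * h + 18))) := by
  have h1 := ((Dek.sol_iff n).2 ⟨hn, hs⟩).bound
  refine h1.trans (Real.exp_le_exp.2 (Real.exp_le_exp.2 ?_))
  have h2 : (3 * (Dek.F4 n).card + 18) ^ (3 * (Dek.F4 n).card + 18) ≤
      (3 * h + 18) ^ (3 * h + 18) := by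
    have h3 : (Dek.F4 n).card ≤ h := hh
    exact (Nat.pow_le_pow_left (by omega) _).trans (Nat.pow_le_pow_right (by omega) (by omega))
  exact_mod_cast h2

end Pool.Agent.Results.MP_b10093_nt.FourthPowers
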