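import Pool.Agent.DK.Sparse

/-!
# The solutions of `σ(n) = rad(n)^2` are very sparse
-/

namespace Pool.Agent.Results.MP_b10093_nt.Sparse

private theorem sol_of {n : ℕ} (h1 : 1 < n)
    (h : ArithmeticFunction.sigma 1 n = (UniqueFactorizationMonoid.radical n) ^ 2) : DK.Sol n := by
  refine ⟨h1, ?_⟩
  rw [DK.sg_eq_sigma, h, Nat.radical_eq_prod_primeFactors]
  rfl

/-- The number of `n ≤ x` with `σ(n) = rad(n)^2` is at most `x ^ (100 log log log x / log log x)` for all large
`x`; in particular it is at most `x ^ ε` for every `ε > 0` and all large `x`. -/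
theorem result : ∃ X : ℕ, ∀ x : ℕ, X ≤ x →
    (((Finset.Icc 1 x).filter fun n : ℕ =>
      ArithmeticFunction.sigma 1 n = (UniqueFactorizationMonoid.radical n) ^ 2).card : ℝ) ≤
      (x : ℝ) ^ (100 * Real.log (Real.log (Real.log x)) / Real.log (Real.log x)) := by
  obtain ⟨X, hX⟩ := DK.sparse
  refine ⟨max X 1, fun x hx => ?_⟩
  have hx0 : (0 : ℝ) < x := by exact_mod_cast lt_of_lt_of_le one_pos ((le_max_right _ _).trans hx)
  have h1 := hX x ((le_max_left _ _).trans hx) ((Finset.Icc 2 x).filter fun n : ℕ =>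
      ArithmeticFunction.sigma 1 n = (UniqueFactorizationMonoid.radical n) ^ 2) (by
    intro n hn
    rw [Finset.mem_filter, Finset.mem_Icc] at hn
    exact ⟨sol_of hn.1.1 hn.2, hn.1.2⟩)
  rw [Real.rpow_def_of_pos hx0, mul_div_assoc', mul_left_comm, ← mul_assoc]
  refine le_trans ?_ h1
  have h2 : ((Finset.Icc 1 x).filter fun n : ℕ =>
      ArithmeticFunction.sigma 1 n = (UniqueFactorizationMonoid.radical n) ^ 2) ⊆
      insert 1 ((Finset.Icc 2 x).filter fun n : ℕ =>
        ArithmeticFunction.sigma 1 n = (UniqueFactorizationMonoid.radical n) ^ 2) := by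
    intro n hn
    rw [Finset.mem_filter, Finset.mem_Icc] at hn
    rw [Finset.mem_insert, Finset.mem_filter, Finset.mem_Icc]
    by_cases h : n = 1
    · exact Or.inl h
    · exact Or.inr ⟨⟨by omega, hn.1.2⟩, hn.2⟩
  have h3 := (Finset.card_le_card h2).trans (Finset.card_insert_le _ _)
  exact_mod_cast h3

end Pool.Agent.Results.MP_b10093_nt.Sparse
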